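import Mathlib

set_option autoImplicit false

namespace PStar

/-- Pairwise intersecting pairs form a star or a triangle. -/
theorem star_or_tri {α : Type*} (R : α → α → Prop) (hs : ∀ a b, R a b → R b a)
    (hi : ∀ a, ¬ R a a)
    (hint : ∀ a b c d, R a b → R c d → a = c ∨ a = d ∨ b = c ∨ b = d) :
    (∀ a b, ¬ R a b) ∨ (∃ a0, ∀ a b, R a b → a = a0 ∨ b = a0) ∨
    (∃ a1 a2 a3, a1 ≠ a2 ∧ a1 ≠ a3 ∧ a2 ≠ a3 ∧
      ∀ a b, R a b → (a = a1 ∨ a = a2 ∨ a = a3) ∧ (b = a1 ∨ b = a2 ∨ b = a3)) := by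
  classical
  by_cases h0 : ∀ a b, ¬ R a b
  · exact Or.inl h0
  right
  push Not at h0
  obtain ⟨a, b, hab⟩ := h0
  have hne : ∀ x y, R x y → x ≠ y := by
    rintro x y h rfl
    exact hi x h
  by_cases ha : ∀ x y, R x y → x = a ∨ y = a
  · exact Or.inl ⟨a, ha⟩
  by_cases hb : ∀ x y, R x y → x = b ∨ y = b
  · exact Or.inl ⟨b, hb⟩
  right
  push Not at ha hb
  obtain ⟨c, d, hcd, hca, hda⟩ := ha
  obtain ⟨e, f, hef, heb, hfb⟩ := hb
  -- an edge `b z` with `z ≠ a`
  obtain ⟨z, hbz, hza⟩ : ∃ z, R b z ∧ z ≠ a := by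
    rcases hint a b c d hab hcd with h | h | h | h
    · exact absurd h.symm hca
    · exact absurd h.symm hda
    · exact ⟨d, h ▸ hcd, hda⟩
    · exact ⟨c, h ▸ hs c d hcd, hca⟩
  -- an edge `a w` with `w ≠ b`
  obtain ⟨w, haw, hwb⟩ : ∃ w, R a w ∧ w ≠ b := by
    rcases hint a b e f hab hef with h | h | h | h
    · exact ⟨f, h ▸ hef, hfb⟩
    · exact ⟨e, h ▸ hs e f hef, heb⟩
    · exact absurd h.symm heb
    · exact absurd h.symm hfb
  have hwz : w = z := by
    rcases hint a w b z haw hbz with h | h | h | h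
    · exact absurd h (hne a b hab)
    · exact absurd h.symm hza
    · exact absurd h hwb
    · exact h
  subst hwz
  refine ⟨a, b, w, hne a b hab, hne a w haw, hne b w hbz, ?_⟩
  intro x y hxy
  have h1 := hint a b x y hab hxy
  have h2 := hint a w x y haw hxy
  have h3 := hint b w x y hbz hxy
  have n1 := hne a b hab
  have n2 := hne a w haw
  have n3 := hne b w hbz
  have n4 := hne x y hxy
  rcases h1 with h | h | h | h
  · subst h
    rcases h3 with h | h | h | h
    · exact absurd h.symm n1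
    · exact ⟨Or.inl rfl, Or.inr (Or.inl h.symm)⟩
    · exact absurd h.symm n2
    · exact ⟨Or.inl rfl, Or.inr (Or.inr h.symm)⟩
  · subst h
    rcases h3 with h | h | h | h
    · exact ⟨Or.inr (Or.inl h.symm), Or.inl rfl⟩
    · exact absurd h.symm n1
    · exact ⟨Or.inr (Or.inr h.symm), Or.inl rfl⟩
    · exact absurd h.symm n2
  · subst h
    rcases h2 with h | h | h | h
    · exact absurd h n1
    · exact ⟨Or.inr (Or.inl rfl), Or.inl h.symm⟩
    · exact absurd h.symm n3
    · exact ⟨Or.inr (Or.inl rfl), Or.inr (Or.inr h.symm)⟩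
  · subst h
    rcases h2 with h | h | h | h
    · exact ⟨Or.inl h.symm, Or.inr (Or.inl rfl)⟩
    · exact absurd h n1
    · exact ⟨Or.inr (Or.inr h.symm), Or.inr (Or.inl rfl)⟩
    · exact absurd h.symm n3

end PStar
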