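import Mathlib

set_option autoImplicit false

/-!
# Bipartite multigraphs plus odd edges inside one side

`m a b` = number of edges between `a` (left) and `b` (right), `o a a'` = number of edges between
the left vertices `a` and `a'`.
-/

namespace PStar

open Finset

/-- The multigraph consisting of the bipartite multigraph `m` and the edges `o` inside the left
side decomposes into `r` matchings. -/
def OddDec {α β : Type*} [Fintype α] [Fintype β] (m : α → β → ℕ) (o : α → α → ℕ) (r : ℕ) : Prop :=
  ∃ (M : Fin r → α → β → ℕ) (O : Fin r → α → α → ℕ),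
    (∀ a b, ∑ c, M c a b = m a b) ∧ (∀ a a', ∑ c, O c a a' = o a a') ∧
    (∀ c a a', O c a a' = O c a' a) ∧
    (∀ c a, ∑ b, M c a b + ∑ a', O c a a' ≤ 1) ∧ (∀ c b, ∑ a, M c a b ≤ 1)

end PStar
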