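import Pool.Agent.PStar.BT.Main
import Pool.Agent.PStar.VC.OfMatch
import Pool.Agent.PStar.FinalZG
import Pool.Agent.PStar.FinalCol

set_option autoImplicit false

namespace PStar

open Finset

section
open Classical

private theorem BTFinal_split {V : Type} [Fintype V] (A : Set V) (g : V → ℕ) :
    ∑ a : {v // v ∈ A}, g a + ∑ b : {v // v ∉ A}, g b = ∑ v, g v :=
  Fintype.sum_subtype_add_sum_subtype (fun v => v ∈ A) g

/-- the matchings on `V` -/
private noncomputable def BTFinal_J {V : Type} (A : Set V)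
    (M : {v // v ∈ A} → {v // v ∉ A} → ℕ) (O : {v // v ∈ A} → {v // v ∈ A} → ℕ) (u v : V) : ℕ :=
  if hu : u ∈ A then (if hv : v ∈ A then O ⟨u, hu⟩ ⟨v, hv⟩ else M ⟨u, hu⟩ ⟨v, hv⟩)
  else (if hv : v ∈ A then M ⟨v, hv⟩ ⟨u, hu⟩ else 0)

private theorem BTFinal_inner {V E : Type} [Fintype V] [Fintype E] (φ : E → Sym2 V)
    (hl : ∀ e, ¬ (φ e).IsDiag) (Z : Finset V) (hZ : Odd Z.card) :
    ∑ u ∈ Z, ∑ v ∈ Z, mult φ u v ≤ bound φ * (Z.card - 1) := by
  have hz := isZG_of_graph φ hl
  have h1 := hz.cuts Z (Finset.subset_univ Z) hZ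
  unfold cut PStar.E at h1
  have h2 : ∑ u ∈ Z, ∑ v ∈ Z, mult φ u v + (∑ u ∈ Z, ∑ v ∈ univ \ Z, mult φ u v +
      ∑ u ∈ Z, (bound φ - edeg φ u)) = bound φ * Z.card := by
    rw [← Finset.sum_add_distrib, ← Finset.sum_add_distrib, mul_comm, ← smul_eq_mul,
      ← Finset.sum_const]
    refine Finset.sum_congr rfl fun u _ => ?_
    have h3 := hz.degree u (Finset.mem_univ u)
    have h4 : ∑ v ∈ univ \ Z, mult φ u v + ∑ v ∈ Z, mult φ u v = ∑ v, mult φ u v :=
      Finset.sum_sdiff (Finset.subset_univ Z)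
    simp only [mul_zero, add_zero] at h3
    omega
  have h5 : bound φ * Z.card = bound φ * (Z.card - 1) + bound φ := by
    obtain ⟨t, ht⟩ := hZ
    rw [ht]
    simp
    ring
  simp only at h1
  omega

/-- every edge has an end in `A`, and any two edges with both ends in `A` have a common end -/
theorem exact_of_oddA {V E : Type} [Fintype V] [Fintype E] (φ : E → Sym2 V)
    (hl : ∀ e, ¬ (φ e).IsDiag) (A : Set V) (hA : ∀ e, ∃ v, v ∈ φ e ∧ v ∈ A)
    (hint : ∀ e e', (∀ v, v ∈ φ e → v ∈ A) → (∀ v, v ∈ φ e' → v ∈ A) →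
      ∃ v, v ∈ φ e ∧ v ∈ φ e') :
    ∃ c : E → Fin (bound φ),
      ∀ e₁ e₂ : E, e₁ ≠ e₂ → (∃ v, v ∈ φ e₁ ∧ v ∈ φ e₂) → c e₁ ≠ c e₂ := by
  have hz := isZG_of_graph φ hl
  have hsym : ∀ u v, mult φ u v = mult φ v u := fun u v =>
    hz.symm u (Finset.mem_univ u) v (Finset.mem_univ v)
  have hdeg : ∀ v, ∑ u, mult φ v u + (bound φ - edeg φ v) = bound φ := by
    intro v
    have := hz.degree v (Finset.mem_univ v)
    simpa using this
  have hsum : ∀ v, ∑ u, mult φ v u ≤ bound φ := fun v => by
    have := hdeg v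
    omega
  have hBB : ∀ u v, u ∉ A → v ∉ A → mult φ u v = 0 := by
    intro u v hu hv
    unfold mult
    rw [Finset.card_eq_zero, Finset.filter_eq_empty_iff]
    intro e _ he
    obtain ⟨w, hw, hwA⟩ := hA e
    rw [he] at hw
    rcases Sym2.mem_iff.1 hw with rfl | rfl
    · exact hu hwA
    · exact hv hwA
  have hne : ∀ u v, mult φ u v ≠ 0 → ∃ e, φ e = s(u, v) := by
    intro u v h
    unfold mult at h
    obtain ⟨e, he⟩ := Finset.card_pos.mp (Nat.pos_of_ne_zero h)
    exact ⟨e, (Finset.mem_filter.mp he).2⟩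
  have hod : OddDec (fun (a : {v // v ∈ A}) (b : {v // v ∉ A}) => mult φ a b)
      (fun a a' : {v // v ∈ A} => mult φ a a') (bound φ) := by
    refine oddDec_main _ _ _ ?_ ?_ ?_ ?_ ?_ ?_
    · intro a a'
      exact hsym _ _
    · intro a
      exact hz.loopless _ (Finset.mem_univ _)
    · intro a b c d h1 h2
      obtain ⟨e, he⟩ := hne _ _ h1
      obtain ⟨e', he'⟩ := hne _ _ h2
      obtain ⟨v, hv1, hv2⟩ := hint e e' (by
        intro v hv
        rw [he] at hv
        rcases Sym2.mem_iff.1 hv with rfl | rfl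
        · exact a.2
        · exact b.2) (by
        intro v hv
        rw [he'] at hv
        rcases Sym2.mem_iff.1 hv with rfl | rfl
        · exact c.2
        · exact d.2)
      rw [he] at hv1
      rw [he'] at hv2
      rcases Sym2.mem_iff.1 hv1 with h3 | h3
      · rcases Sym2.mem_iff.1 hv2 with h4 | h4
        · exact Or.inl (Subtype.ext (h3.symm.trans h4))
        · exact Or.inr (Or.inl (Subtype.ext (h3.symm.trans h4)))
      · rcases Sym2.mem_iff.1 hv2 with h4 | h4
        · exact Or.inr (Or.inr (Or.inl (Subtype.ext (h3.symm.trans h4))))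
        · exact Or.inr (Or.inr (Or.inr (Subtype.ext (h3.symm.trans h4))))
    · intro a
      have h1 := BTFinal_split A (fun u => mult φ a u)
      have h2 := hsum a
      omega
    · intro b
      have h1 := BTFinal_split A (fun u => mult φ b u)
      have h2 := hsum b
      have h3 : ∑ a : {v // v ∈ A}, mult φ a b = ∑ a : {v // v ∈ A}, mult φ b a :=
        Finset.sum_congr rfl fun a _ => hsym _ _
      omega
    · intro X Y hXY
      have hdisj : Disjoint (X.map (Function.Embedding.subtype _))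
          (Y.map (Function.Embedding.subtype _)) := by
        rw [Finset.disjoint_left]
        intro v h1 h2
        rw [Finset.mem_map] at h1 h2
        obtain ⟨a, _, rfl⟩ := h1
        obtain ⟨b, _, h3⟩ := h2
        have h4 : (b : V) = (a : V) := h3
        exact b.2 (by rw [h4]; exact a.2)
      have hcard : (X.map (Function.Embedding.subtype _) ∪
          Y.map (Function.Embedding.subtype _)).card = X.card + Y.card := by
        rw [Finset.card_union_of_disjoint hdisj, Finset.card_map, Finset.card_map]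
      have h1 := BTFinal_inner φ hl (X.map (Function.Embedding.subtype _) ∪
        Y.map (Function.Embedding.subtype _)) (by rw [hcard]; exact hXY)
      rw [hcard] at h1
      refine le_trans (le_of_eq ?_) h1
      rw [Finset.sum_union hdisj, Finset.sum_map, Finset.sum_map]
      have e1 : ∀ u, ∑ v ∈ X.map (Function.Embedding.subtype _) ∪
          Y.map (Function.Embedding.subtype _), mult φ u v =
          ∑ a ∈ X, mult φ u a + ∑ b ∈ Y, mult φ u b := by
        intro u
        rw [Finset.sum_union hdisj, Finset.sum_map, Finset.sum_map]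
        rfl
      simp only [e1, Finset.sum_add_distrib, Function.Embedding.subtype_apply]
      have e2 : ∑ b ∈ Y, ∑ b' ∈ Y, mult φ b b' = 0 :=
        Finset.sum_eq_zero fun b _ => Finset.sum_eq_zero fun b' _ => hBB _ _ b.2 b'.2
      have e3 : ∑ b ∈ Y, ∑ a ∈ X, mult φ b a = ∑ a ∈ X, ∑ b ∈ Y, mult φ a b := by
        rw [Finset.sum_comm]
        exact Finset.sum_congr rfl fun a _ => Finset.sum_congr rfl fun b _ => hsym _ _
      rw [e2, e3]
      ring
  obtain ⟨M, O, hM, hO, hOs, h1, h2⟩ := hod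
  apply coloring_of_dec φ hl (bound φ) (fun v => bound φ - edeg φ v)
  · intro v
    have h3 : edeg φ v ≤ bound φ := by
      unfold edeg bound
      exact le_max_of_le_left
        (Finset.le_sup (f := fun v : V => (Finset.univ.filter (fun e : E => v ∈ φ e)).card)
          (Finset.mem_univ v))
    omega
  · refine dec_of_matchings (fun v _ => hdeg v) (fun c => BTFinal_J A (M c) (O c)) ?_ ?_ ?_
    · intro c u _ v _
      unfold BTFinal_J
      by_cases hu : u ∈ A
      · by_cases hv : v ∈ A
        · simp only [dif_pos hu, dif_pos hv]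
          exact hOs c _ _
        · simp only [dif_pos hu, dif_neg hv]
      · by_cases hv : v ∈ A
        · simp only [dif_neg hu, dif_pos hv]
        · simp only [dif_neg hu, dif_neg hv]
    · intro u _ v _
      unfold BTFinal_J
      by_cases hu : u ∈ A
      · by_cases hv : v ∈ A
        · simp only [dif_pos hu, dif_pos hv]
          exact hO _ _
        · simp only [dif_pos hu, dif_neg hv]
          exact hM _ _
      · by_cases hv : v ∈ A
        · simp only [dif_neg hu, dif_pos hv]
          rw [hsym]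
          exact hM _ _
        · simp only [dif_neg hu, dif_neg hv, Finset.sum_const_zero]
          exact (hBB u v hu hv).symm
    · intro c v _
      rw [← BTFinal_split A (fun u => BTFinal_J A (M c) (O c) v u)]
      by_cases hv : v ∈ A
      · have e1 : ∀ a : {v // v ∈ A}, BTFinal_J A (M c) (O c) v a = O c ⟨v, hv⟩ a := by
          intro a
          unfold BTFinal_J
          rw [dif_pos hv, dif_pos a.2]
        have e2 : ∀ b : {v // v ∉ A}, BTFinal_J A (M c) (O c) v b = M c ⟨v, hv⟩ b := by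
          intro b
          unfold BTFinal_J
          rw [dif_pos hv, dif_neg b.2]
        simp only [e1, e2]
        rw [add_comm]
        exact h1 c ⟨v, hv⟩
      · have e1 : ∀ a : {v // v ∈ A}, BTFinal_J A (M c) (O c) v a = M c a ⟨v, hv⟩ := by
          intro a
          unfold BTFinal_J
          rw [dif_neg hv, dif_pos a.2]
        have e2 : ∀ b : {v // v ∉ A}, BTFinal_J A (M c) (O c) v b = 0 := by
          intro b
          unfold BTFinal_J
          rw [dif_neg hv, dif_neg b.2]
        simp only [e1, e2, Finset.sum_const_zero, add_zero]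
        exact h2 c ⟨v, hv⟩

theorem exact_of_adjacentF {V E : Type} [Fintype V] [Fintype E] (φ : E → Sym2 V)
    (hl : ∀ e, ¬ (φ e).IsDiag) (F : Set E) (A : Set V)
    (hF : ∀ e ∈ F, ∀ e' ∈ F, ∃ v, v ∈ φ e ∧ v ∈ φ e')
    (hA : ∀ e, e ∉ F → ∃ x y, φ e = s(x, y) ∧ x ∈ A ∧ y ∉ A) :
    ∃ c : E → Fin (bound φ),
      ∀ e₁ e₂ : E, e₁ ≠ e₂ → (∃ v, v ∈ φ e₁ ∧ v ∈ φ e₂) → c e₁ ≠ c e₂ := by
  have hin : ∀ e, (∀ v, v ∈ φ e → v ∈ A) → e ∈ F := by
    intro e he
    by_contra hF'
    obtain ⟨x, y, hxy, _, hy⟩ := hA e hF'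
    exact hy (he y (hxy ▸ Sym2.mem_mk_right x y))
  have hout : ∀ e, (∀ v, v ∈ φ e → v ∉ A) → e ∈ F := by
    intro e he
    by_contra hF'
    obtain ⟨x, y, hxy, hx, _⟩ := hA e hF'
    exact he x (hxy ▸ Sym2.mem_mk_left x y) hx
  by_cases h : ∀ e, ∃ v, v ∈ φ e ∧ v ∈ A
  · exact exact_of_oddA φ hl A h fun e e' h1 h2 => hF e (hin e h1) e' (hin e' h2)
  · push Not at h
    obtain ⟨e0, he0⟩ := h
    refine exact_of_oddA φ hl Aᶜ ?_ fun e e' h1 h2 => hF e (hout e h1) e' (hout e' h2)
    intro e
    by_contra hc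
    have h1 : ∀ v, v ∈ φ e → v ∈ A := by
      intro v hv
      by_contra hvA
      exact hc ⟨v, hv, hvA⟩
    obtain ⟨v, hv1, hv2⟩ := hF e0 (hout e0 he0) e (hin e h1)
    exact he0 v hv1 (h1 v hv2)

end

end PStar
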