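import Pool.Agent.PStar.VC.Konig
import Pool.Agent.PStar.BT.Defs

set_option autoImplicit false

namespace PStar

open Finset

/-- all odd edges have a common end `a0` -/
theorem oddDec_star {α β : Type*} [Fintype α] [Fintype β] [DecidableEq α] [DecidableEq β]
    (x : α → β → ℕ) (o : α → α → ℕ) (s : ℕ) (ho : ∀ a a', o a a' = o a' a)
    (hl : ∀ a, o a a = 0) (hs : ∑ a, ∑ a', o a a' = 2 * s) (a0 : α)
    (hst : ∀ a a', o a a' ≠ 0 → a = a0 ∨ a' = a0)
    (hA : ∀ a, ∑ b, x a b + ∑ a', o a a' ≤ s) (hB : ∀ b, ∑ a, x a b ≤ s) : OddDec x o s := by
  -- row sums of the odd edges away from `a0`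
  have hrow : ∀ a, a ≠ a0 → ∑ a', o a a' = o a a0 := by
    intro a ha
    refine Finset.sum_eq_single a0 (fun a' _ hne => ?_) (fun h => absurd (mem_univ _) h)
    by_contra hno
    rcases hst a a' hno with h1 | h1
    · exact ha h1
    · exact hne h1
  have hcol : ∑ a ∈ univ.erase a0, o a a0 = ∑ a', o a0 a' := by
    rw [← Finset.add_sum_erase univ (fun a' => o a0 a') (mem_univ a0), hl a0, zero_add]
    exact Finset.sum_congr rfl fun a _ => ho a a0
  have hs2 : ∑ a', o a0 a' = s := by
    have h1 : ∑ a, ∑ a', o a a' = ∑ a', o a0 a' + ∑ a ∈ univ.erase a0, o a a0 := by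
      rw [← Finset.add_sum_erase univ (fun a => ∑ a', o a a') (mem_univ a0)]
      congr 1
      exact Finset.sum_congr rfl fun a ha => hrow a (Finset.ne_of_mem_erase ha)
    rw [hcol, hs] at h1
    omega
  have hx0 : ∀ b, x a0 b = 0 := by
    intro b
    have h1 := hA a0
    rw [hs2] at h1
    have h2 : x a0 b ≤ ∑ b, x a0 b :=
      Finset.single_le_sum (f := fun b => x a0 b) (fun _ _ => Nat.zero_le _) (mem_univ b)
    omega
  obtain ⟨M', hM1, hM2, hM3⟩ := konig_mult (α := α) (β := Option β) s
    (fun a b => b.elim (o a a0) (fun b => x a b)) (by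
      intro a
      rw [Fintype.sum_option]
      simp only [Option.elim_none, Option.elim_some]
      by_cases ha : a = a0
      · rw [ha, hl a0, zero_add, Finset.sum_eq_zero (fun b _ => hx0 b)]
        exact Nat.zero_le _
      · have h1 := hA a
        rw [hrow a ha] at h1
        omega) (by
      intro b
      rcases b with _ | b
      · simp only [Option.elim_none]
        rw [← Finset.add_sum_erase univ (fun a => o a a0) (mem_univ a0), hl a0, zero_add, hcol, hs2]
      · simp only [Option.elim_some]
        exact hB b)
  have hM0 : ∀ c b, M' c a0 b = 0 := by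
    intro c b
    have h1 := hM1 a0 b
    have h2 : (b.elim (o a0 a0) (fun b => x a0 b) : ℕ) = 0 := by
      rcases b with _ | b
      · exact hl a0
      · exact hx0 b
    rw [h2] at h1
    exact (Finset.sum_eq_zero_iff.1 h1) c (mem_univ c)
  refine ⟨fun c a b => M' c a (some b), fun c a a' =>
    if a' = a0 then M' c a none else if a = a0 then M' c a' none else 0, ?_, ?_, ?_, ?_, ?_⟩
  · intro a b
    exact hM1 a (some b)
  · intro a a'
    by_cases h1 : a' = a0
    · simp only [if_pos h1]
      rw [h1]
      exact hM1 a none
    · simp only [if_neg h1]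
      by_cases h2 : a = a0
      · simp only [if_pos h2]
        rw [h2, ho a0 a']
        exact hM1 a' none
      · simp only [if_neg h2, Finset.sum_const_zero]
        by_contra hno
        rcases hst a a' (fun h => hno h.symm) with h3 | h3
        · exact h2 h3
        · exact h1 h3
  · intro c a a'
    by_cases h1 : a' = a0
    · by_cases h2 : a = a0
      · simp only [h1, h2]
      · simp only [if_pos h1, if_neg h2]
    · by_cases h2 : a = a0
      · simp only [if_neg h1, if_pos h2]
      · simp only [if_neg h1, if_neg h2]
  · intro c a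
    by_cases ha : a = a0
    · have h1 : ∑ b, M' c a (some b) = 0 :=
        Finset.sum_eq_zero fun b _ => by rw [ha]; exact hM0 c _
      have h2 : ∑ a', (if a' = a0 then M' c a none else if a = a0 then M' c a' none else 0) ≤
          ∑ a', M' c a' none := by
        refine Finset.sum_le_sum fun a' _ => ?_
        by_cases h3 : a' = a0
        · rw [if_pos h3, ha, hM0]
          exact Nat.zero_le _
        · rw [if_neg h3, if_pos ha]
      have h3 := hM3 c none
      show ∑ b, M' c a (some b) +
        ∑ a', (if a' = a0 then M' c a none else if a = a0 then M' c a' none else 0) ≤ 1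
      omega
    · have h2 : ∑ a', (if a' = a0 then M' c a none else if a = a0 then M' c a' none else 0) =
          M' c a none := by
        rw [Finset.sum_eq_single a0]
        · rw [if_pos rfl]
        · intro a' _ hne
          rw [if_neg hne, if_neg ha]
        · intro h
          exact absurd (mem_univ _) h
      have h3 := hM2 c a
      rw [Fintype.sum_option] at h3
      show ∑ b, M' c a (some b) +
        ∑ a', (if a' = a0 then M' c a none else if a = a0 then M' c a' none else 0) ≤ 1
      omega
  · intro c b
    exact hM3 c (some b)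

end PStar
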