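import Pool.Agent.PStar.VC.Konig
import Pool.Agent.PStar.BT.Defs
import Pool.Agent.PStar.Perm

set_option autoImplicit false

namespace PStar

open Finset

/-- Assigning the parts of a merged vertex to three vertices: each colour `c` has a target
`t c : Option β`. -/
theorem exists_assign {β : Type*} [Fintype β] [DecidableEq β] (s : ℕ) (t : Fin s → Option β)
    (y : Fin 3 → Option β → ℕ)
    (hy : ∀ τ, ∑ i, y i τ = (univ.filter (fun c => t c = τ)).card) :
    ∃ L : Fin s → Fin 3, ∀ i τ, (univ.filter (fun c => L c = i ∧ t c = τ)).card = y i τ := by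
  have htot : ∑ τ, (univ.filter (fun c => t c = τ)).card = s := by
    have := Finset.card_eq_sum_card_fiberwise (f := t) (s := univ) (t := univ)
      (fun c _ => mem_coe.2 (mem_univ _))
    rw [← this, card_univ, Fintype.card_fin]
  have hsum : ∑ i, ∑ τ, y i τ = s := by
    rw [Finset.sum_comm, Finset.sum_congr rfl fun τ _ => hy τ]
    exact htot
  obtain ⟨s0, hs0⟩ := exists_labelling (fun i => ∑ τ, y i τ) hsum
  obtain ⟨σ, hσ⟩ := exists_coupling s0 t y (fun i => (hs0 i).symm) hy
  exact ⟨fun c => s0 (σ c), fun i τ => hσ i τ⟩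

private theorem Tri_split {α : Type*} [Fintype α] [DecidableEq α] {a1 a2 a3 : α} (h12 : a1 ≠ a2)
    (h13 : a1 ≠ a3) (h23 : a2 ≠ a3) (f : α → ℕ) :
    ∑ a, f a = f a1 + f a2 + f a3 +
      ∑ a ∈ univ.filter (fun a => a ≠ a1 ∧ a ≠ a2 ∧ a ≠ a3), f a := by
  have h1 : (univ : Finset α).filter (fun a => ¬ (a ≠ a1 ∧ a ≠ a2 ∧ a ≠ a3)) = {a1, a2, a3} := by
    ext a
    simp only [mem_filter, mem_univ, true_and, mem_insert, mem_singleton]
    tauto
  have h2 := Finset.sum_filter_add_sum_filter_not univ (fun a => a ≠ a1 ∧ a ≠ a2 ∧ a ≠ a3) f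
  rw [← h2, h1, Finset.sum_insert, Finset.sum_insert, Finset.sum_singleton]
  · ring
  · rw [mem_singleton]
    exact h23
  · rw [mem_insert, mem_singleton, not_or]
    exact ⟨h12, h13⟩

/-- an edge between `p` and `q` -/
private def Tri_e {α : Type*} [DecidableEq α] (p q a a' : α) : ℕ :=
  (if a = p ∧ a' = q then 1 else 0) + (if a = q ∧ a' = p then 1 else 0)

private theorem Tri_e_symm {α : Type*} [DecidableEq α] (p q a a' : α) :
    Tri_e p q a a' = Tri_e p q a' a := by
  unfold Tri_e
  rw [add_comm]
  congr 1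
  · simp only [and_comm]
  · simp only [and_comm]

private theorem Tri_e_sum {α : Type*} [Fintype α] [DecidableEq α] (p q a : α) :
    ∑ a', Tri_e p q a a' = (if a = p then 1 else 0) + (if a = q then 1 else 0) := by
  unfold Tri_e
  rw [Finset.sum_add_distrib]
  congr 1
  · by_cases h : a = p
    · simp [h]
    · simp [h]
  · by_cases h : a = q
    · simp [h]
    · simp [h]

/-- all odd edges lie in the triangle `a1 a2 a3` -/
theorem oddDec_tri {α β : Type*} [Fintype α] [Fintype β] [DecidableEq α] [DecidableEq β]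
    (x : α → β → ℕ) (o : α → α → ℕ) (s : ℕ) (ho : ∀ a a', o a a' = o a' a)
    (hl : ∀ a, o a a = 0) (hs : ∑ a, ∑ a', o a a' = 2 * s) (a1 a2 a3 : α) (h12 : a1 ≠ a2)
    (h13 : a1 ≠ a3) (h23 : a2 ≠ a3)
    (htr : ∀ a a', o a a' ≠ 0 → (a = a1 ∨ a = a2 ∨ a = a3) ∧ (a' = a1 ∨ a' = a2 ∨ a' = a3))
    (hA : ∀ a, ∑ b, x a b + ∑ a', o a a' ≤ s) (hB : ∀ b, ∑ a, x a b ≤ s) : OddDec x o s := by
  classical
  have h21 : a2 ≠ a1 := h12.symm
  have h31 : a3 ≠ a1 := h13.symm
  have h32 : a3 ≠ a2 := h23.symm
  have hz1 : ∀ a a', (a ≠ a1 ∧ a ≠ a2 ∧ a ≠ a3) → o a a' = 0 := by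
    intro a a' h
    by_contra hne
    have := (htr a a' hne).1
    tauto
  have hz2 : ∀ a a', (a' ≠ a1 ∧ a' ≠ a2 ∧ a' ≠ a3) → o a a' = 0 := by
    intro a a' h
    rw [ho]
    exact hz1 a' a h
  have hrow : ∀ a, ∑ a', o a a' = o a a1 + o a a2 + o a a3 := by
    intro a
    rw [Tri_split h12 h13 h23]
    have : ∑ a' ∈ univ.filter (fun a => a ≠ a1 ∧ a ≠ a2 ∧ a ≠ a3), o a a' = 0 := by
      apply Finset.sum_eq_zero
      intro a' ha'
      exact hz2 a a' (mem_filter.mp ha').2
    omega
  have hs' : s = o a1 a2 + o a1 a3 + o a2 a3 := by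
    have h1 : ∑ a, ∑ a', o a a' = ∑ a', o a1 a' + ∑ a', o a2 a' + ∑ a', o a3 a' := by
      rw [Tri_split h12 h13 h23]
      have : ∑ a ∈ univ.filter (fun a => a ≠ a1 ∧ a ≠ a2 ∧ a ≠ a3), ∑ a', o a a' = 0 := by
        apply Finset.sum_eq_zero
        intro a ha
        apply Finset.sum_eq_zero
        intro a' _
        exact hz1 a a' (mem_filter.mp ha).2
      omega
    rw [hs, hrow, hrow, hrow, hl, hl, hl, ho a2 a1, ho a3 a1, ho a3 a2] at h1
    omega
  have hX1 : ∑ b, x a1 b ≤ o a2 a3 := by
    have := hA a1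
    rw [hrow, hl] at this
    omega
  have hX2 : ∑ b, x a2 b ≤ o a1 a3 := by
    have := hA a2
    rw [hrow, hl, ho a2 a1] at this
    omega
  have hX3 : ∑ b, x a3 b ≤ o a1 a2 := by
    have := hA a3
    rw [hrow, hl, ho a3 a1, ho a3 a2] at this
    omega
  set m' : α → β → ℕ := fun a b =>
    if a = a1 then x a1 b + x a2 b + x a3 b else if a = a2 then 0 else if a = a3 then 0
      else x a b with hm'
  have hm1 : ∀ b, m' a1 b = x a1 b + x a2 b + x a3 b := fun b => by simp only [hm', if_true]
  have hm2 : ∀ b, m' a2 b = 0 := fun b => by simp only [hm', if_neg h21, if_true]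
  have hm3 : ∀ b, m' a3 b = 0 := fun b => by simp only [hm', if_neg h31, if_neg h32, if_true]
  have hm4 : ∀ a b, (a ≠ a1 ∧ a ≠ a2 ∧ a ≠ a3) → m' a b = x a b := fun a b h => by
    simp only [hm', if_neg h.1, if_neg h.2.1, if_neg h.2.2]
  have hmrow : ∀ a, ∑ b, m' a b ≤ s := by
    intro a
    by_cases e1 : a = a1
    · subst e1
      rw [Finset.sum_congr rfl fun b _ => hm1 b, Finset.sum_add_distrib, Finset.sum_add_distrib]
      omega
    · by_cases e2 : a = a2
      · subst e2
        rw [Finset.sum_congr rfl fun b _ => hm2 b]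
        simp
      · by_cases e3 : a = a3
        · subst e3
          rw [Finset.sum_congr rfl fun b _ => hm3 b]
          simp
        · rw [Finset.sum_congr rfl fun b _ => hm4 a b ⟨e1, e2, e3⟩]
          exact le_trans (Nat.le_add_right _ _) (hA a)
  have hmcol : ∀ b, ∑ a, m' a b ≤ s := by
    intro b
    have h1 := hB b
    rw [Tri_split h12 h13 h23] at h1 ⊢
    rw [hm1, hm2, hm3, Finset.sum_congr rfl fun a ha => hm4 a b (mem_filter.mp ha).2]
    omega
  obtain ⟨M', hM1, hM2, hM3⟩ := konig_mult s m' hmrow hmcol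
  have hM01 : ∀ c b, M' c a1 b ≤ 1 := fun c b =>
    le_trans (Finset.single_le_sum (f := fun b => M' c a1 b) (fun _ _ => Nat.zero_le _)
      (mem_univ b)) (hM2 c a1)
  have hMuniq : ∀ c b b', M' c a1 b = 1 → M' c a1 b' = 1 → b = b' := by
    intro c b b' hb hb'
    by_contra hne
    have h1 : ∑ b'' ∈ ({b, b'} : Finset β), M' c a1 b'' ≤ ∑ b'', M' c a1 b'' :=
      Finset.sum_le_sum_of_subset (subset_univ _)
    rw [Finset.sum_pair hne, hb, hb'] at h1
    have := hM2 c a1
    omega
  set t : Fin s → Option β := fun c =>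
    if h : ∃ b, M' c a1 b = 1 then some h.choose else none with ht
  have ht1 : ∀ c b, M' c a1 b = if t c = some b then 1 else 0 := by
    intro c b
    by_cases h : ∃ b, M' c a1 b = 1
    · have h2 : t c = some h.choose := by simp only [ht, dif_pos h]
      rw [h2]
      by_cases hb : M' c a1 b = 1
      · have h3 : h.choose = b := hMuniq c _ _ h.choose_spec hb
        rw [hb, h3, if_pos rfl]
      · have h3 : ¬ (some h.choose = some b) := by
          intro h4
          rw [Option.some.injEq] at h4
          apply hb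
          rw [← h4]
          exact h.choose_spec
        rw [if_neg h3]
        have := hM01 c b
        omega
    · have h2 : t c = none := by simp only [ht, dif_neg h]
      rw [h2]
      have h3 : M' c a1 b ≠ 1 := fun h4 => h ⟨b, h4⟩
      have := hM01 c b
      simp
      omega
  have hcs : ∀ b, (univ.filter (fun c => t c = some b)).card = x a1 b + x a2 b + x a3 b := by
    intro b
    rw [Finset.card_filter, ← hm1, ← hM1]
    exact Finset.sum_congr rfl fun c _ => (ht1 c b).symm
  have hcn : (univ.filter (fun c => t c = none)).card +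
      ∑ b, (x a1 b + x a2 b + x a3 b) = s := by
    have h1 := Finset.card_eq_sum_card_fiberwise (f := t) (s := univ) (t := univ)
      (fun c _ => mem_coe.2 (mem_univ _))
    rw [card_univ, Fintype.card_fin, Fintype.sum_option] at h1
    rw [Finset.sum_congr rfl fun b _ => (hcs b).symm]
    exact h1.symm
  rw [Finset.sum_add_distrib, Finset.sum_add_distrib] at hcn
  set y : Fin 3 → Option β → ℕ := fun i τ => match i, τ with
    | 0, some b => x a1 b
    | 1, some b => x a2 b
    | 2, some b => x a3 b
    | 0, none => o a2 a3 - ∑ b, x a1 b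
    | 1, none => o a1 a3 - ∑ b, x a2 b
    | 2, none => o a1 a2 - ∑ b, x a3 b with hy
  obtain ⟨L, hL⟩ := exists_assign s t y (by
    intro τ
    rw [Fin.sum_univ_three]
    cases τ with
    | none =>
      show (o a2 a3 - ∑ b, x a1 b) + (o a1 a3 - ∑ b, x a2 b) + (o a1 a2 - ∑ b, x a3 b) = _
      omega
    | some b =>
      rw [hcs])
  have hLcard : ∀ i, (univ.filter (fun c => L c = i)).card = ∑ τ, y i τ := by
    intro i
    rw [Finset.card_eq_sum_card_fiberwise (f := t) (s := univ.filter (fun c => L c = i))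
      (t := univ) (fun c _ => mem_coe.2 (mem_univ _))]
    refine Finset.sum_congr rfl fun τ _ => ?_
    rw [← hL i τ, filter_filter]
  have hL0 : (univ.filter (fun c => L c = 0)).card = o a2 a3 := by
    rw [hLcard, Fintype.sum_option]
    show (o a2 a3 - ∑ b, x a1 b) + ∑ b, x a1 b = _
    omega
  have hL1 : (univ.filter (fun c => L c = 1)).card = o a1 a3 := by
    rw [hLcard, Fintype.sum_option]
    show (o a1 a3 - ∑ b, x a2 b) + ∑ b, x a2 b = _
    omega
  have hL2 : (univ.filter (fun c => L c = 2)).card = o a1 a2 := by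
    rw [hLcard, Fintype.sum_option]
    show (o a1 a2 - ∑ b, x a3 b) + ∑ b, x a3 b = _
    omega
  have hLM : ∀ i b, ∑ c, (if L c = i then M' c a1 b else 0) = y i (some b) := by
    intro i b
    rw [← hL i (some b), Finset.card_filter]
    refine Finset.sum_congr rfl fun c _ => ?_
    rw [ht1 c b]
    by_cases e1 : L c = i
    · by_cases e2 : t c = some b
      · simp [e1, e2]
      · simp [e1, e2]
    · simp [e1]
  have hL3 : ∀ c, L c = 0 ∨ L c = 1 ∨ L c = 2 := by
    intro c
    have : ∀ j : Fin 3, j = 0 ∨ j = 1 ∨ j = 2 := by decide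
    exact this (L c)
  refine ⟨fun c a b => if a = a1 then (if L c = 0 then M' c a1 b else 0) else
      if a = a2 then (if L c = 1 then M' c a1 b else 0) else
      if a = a3 then (if L c = 2 then M' c a1 b else 0) else M' c a b,
    fun c a a' => (if L c = 0 then Tri_e a2 a3 a a' else 0) +
      (if L c = 1 then Tri_e a1 a3 a a' else 0) + (if L c = 2 then Tri_e a1 a2 a a' else 0),
    ?_, ?_, ?_, ?_, ?_⟩
  · intro a b
    by_cases e1 : a = a1
    · subst e1
      simp only [if_true]
      exact hLM 0 b
    · by_cases e2 : a = a2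
      · subst e2
        simp only [if_neg e1, if_true]
        exact hLM 1 b
      · by_cases e3 : a = a3
        · subst e3
          simp only [if_neg e1, if_neg e2, if_true]
          exact hLM 2 b
        · simp only [if_neg e1, if_neg e2, if_neg e3]
          rw [hM1, hm4 a b ⟨e1, e2, e3⟩]
  · intro a a'
    have hcount : ∀ (i : Fin 3) (k : ℕ), ∑ c, (if L c = i then k else 0) =
        (univ.filter (fun c => L c = i)).card * k := by
      intro i k
      rw [← Finset.sum_filter, Finset.sum_const, smul_eq_mul]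
    rw [Finset.sum_add_distrib, Finset.sum_add_distrib, hcount, hcount, hcount, hL0, hL1, hL2]
    unfold Tri_e
    by_cases e : a ≠ a1 ∧ a ≠ a2 ∧ a ≠ a3
    · rw [hz1 a a' e]
      simp [e.1, e.2.1, e.2.2]
    · by_cases e' : a' ≠ a1 ∧ a' ≠ a2 ∧ a' ≠ a3
      · rw [hz2 a a' e']
        simp [e'.1, e'.2.1, e'.2.2]
      · have f : a = a1 ∨ a = a2 ∨ a = a3 := by tauto
        have f' : a' = a1 ∨ a' = a2 ∨ a' = a3 := by tauto
        rcases f with rfl | rfl | rfl
        · rcases f' with rfl | rfl | rfl
          · simp [h12, h13, hl]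
          · simp [h12, h13, h23, h21, h31, h32]
          · simp [h12, h13, h23, h21, h31, h32]
        · rcases f' with rfl | rfl | rfl
          · simp [h12, h13, h23, h21, h31, h32]
            exact ho _ _
          · simp [h23, h21, hl]
          · simp [h12, h13, h23, h21, h31, h32]
        · rcases f' with rfl | rfl | rfl
          · simp [h12, h13, h23, h21, h31, h32]
            exact ho _ _
          · simp [h12, h13, h23, h21, h31, h32]
            exact ho _ _
          · simp [h31, h32, hl]
  · intro c a a'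
    simp only [Tri_e_symm _ _ a a']
  · intro c a
    have h1 := hM2 c a1
    have h2 := hM2 c a
    have hO : ∑ a', ((if L c = 0 then Tri_e a2 a3 a a' else 0) +
        (if L c = 1 then Tri_e a1 a3 a a' else 0) + (if L c = 2 then Tri_e a1 a2 a a' else 0)) =
        (if L c = 0 then (if a = a2 then 1 else 0) + (if a = a3 then 1 else 0) else 0) +
        (if L c = 1 then (if a = a1 then 1 else 0) + (if a = a3 then 1 else 0) else 0) +
        (if L c = 2 then (if a = a1 then 1 else 0) + (if a = a2 then 1 else 0) else 0) := by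
      have hif : ∀ (P : Prop) [Decidable P] (p q : α),
          ∑ a', (if P then Tri_e p q a a' else 0) =
            if P then (if a = p then 1 else 0) + (if a = q then 1 else 0) else 0 := by
        intro P _ p q
        by_cases g : P
        · simp only [if_pos g]
          exact Tri_e_sum p q a
        · simp only [if_neg g, Finset.sum_const_zero]
      rw [Finset.sum_add_distrib, Finset.sum_add_distrib, hif, hif, hif]
    rw [hO]
    by_cases e1 : a = a1
    · subst e1
      rcases hL3 c with g | g | g <;> simp [g, h12, h13, h21, h31] <;> omega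
    · by_cases e2 : a = a2
      · subst e2
        rcases hL3 c with g | g | g <;> simp [g, h21, h23, h12, h32] <;> omega
      · by_cases e3 : a = a3
        · subst e3
          rcases hL3 c with g | g | g <;> simp [g, h31, h32, h13, h23] <;> omega
        · rcases hL3 c with g | g | g <;> simp [g, e1, e2, e3] <;> omega
  · intro c b
    have hkey : ∀ (f g : α → ℕ), (∀ a, (a ≠ a1 ∧ a ≠ a2 ∧ a ≠ a3) → f a = g a) →
        f a1 + f a2 + f a3 ≤ g a1 + g a2 + g a3 → ∑ a, g a ≤ 1 → ∑ a, f a ≤ 1 := by
      intro f g hfg h4 h5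
      rw [Tri_split h12 h13 h23 g] at h5
      have h6 : ∑ a ∈ univ.filter (fun a => a ≠ a1 ∧ a ≠ a2 ∧ a ≠ a3), f a =
          ∑ a ∈ univ.filter (fun a => a ≠ a1 ∧ a ≠ a2 ∧ a ≠ a3), g a :=
        Finset.sum_congr rfl fun a ha => hfg a (mem_filter.mp ha).2
      rw [Tri_split h12 h13 h23 f, h6]
      omega
    refine hkey _ (fun a => M' c a b) ?_ ?_ (hM3 c b)
    · intro a h3
      show (if a = a1 then (if L c = 0 then M' c a1 b else 0) else
          if a = a2 then (if L c = 1 then M' c a1 b else 0) else
          if a = a3 then (if L c = 2 then M' c a1 b else 0) else M' c a b) = M' c a b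
      rw [if_neg h3.1, if_neg h3.2.1, if_neg h3.2.2]
    · show (if a1 = a1 then (if L c = 0 then M' c a1 b else 0) else
          if a1 = a2 then (if L c = 1 then M' c a1 b else 0) else
          if a1 = a3 then (if L c = 2 then M' c a1 b else 0) else M' c a1 b) +
        (if a2 = a1 then (if L c = 0 then M' c a1 b else 0) else
          if a2 = a2 then (if L c = 1 then M' c a1 b else 0) else
          if a2 = a3 then (if L c = 2 then M' c a1 b else 0) else M' c a2 b) +
        (if a3 = a1 then (if L c = 0 then M' c a1 b else 0) else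
          if a3 = a2 then (if L c = 1 then M' c a1 b else 0) else
          if a3 = a3 then (if L c = 2 then M' c a1 b else 0) else M' c a3 b) ≤
        M' c a1 b + M' c a2 b + M' c a3 b
      rw [if_pos rfl, if_neg h21, if_pos rfl, if_neg h31, if_neg h32, if_pos rfl]
      have f01 : (0 : Fin 3) ≠ 1 := by decide
      have f02 : (0 : Fin 3) ≠ 2 := by decide
      have f12 : (1 : Fin 3) ≠ 2 := by decide
      rcases hL3 c with g | g | g
      · rw [g, if_pos rfl, if_neg f01, if_neg f02]
        omega
      · rw [g, if_neg f01.symm, if_pos rfl, if_neg f12]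
        omega
      · rw [g, if_neg f02.symm, if_neg f12.symm, if_pos rfl]
        omega

end PStar
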