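import Pool.Agent.PStar.BT.Split
import Pool.Agent.PStar.BT.Star
import Pool.Agent.PStar.BT.Tri
import Pool.Agent.PStar.BT.Cls

set_option autoImplicit false

namespace PStar

open Finset

theorem oddDec_add {α β : Type*} [Fintype α] [Fintype β]
    {x m : α → β → ℕ} {o : α → α → ℕ} {r s : ℕ} (hx : ∀ a b, x a b ≤ m a b) (hsr : s ≤ r)
    (h1 : OddDec x o s) (h2 : OddDec (fun a b => m a b - x a b) (fun _ _ => 0) (r - s)) :
    OddDec m o r := by
  obtain ⟨M1, O1, hM1, hO1, hs1, ha1, hb1⟩ := h1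
  obtain ⟨M2, O2, hM2, hO2, hs2, ha2, hb2⟩ := h2
  obtain ⟨e⟩ : Nonempty (Fin s ⊕ Fin (r - s) ≃ Fin r) :=
    ⟨finSumFinEquiv.trans (finCongr (by omega))⟩
  refine ⟨fun c => Sum.elim M1 M2 (e.symm c), fun c => Sum.elim O1 O2 (e.symm c),
    ?_, ?_, ?_, ?_, ?_⟩
  · intro a b
    have h : ∑ c : Fin r, Sum.elim M1 M2 (e.symm c) a b =
        ∑ d : Fin s ⊕ Fin (r - s), Sum.elim M1 M2 d a b :=
      Equiv.sum_comp e.symm (fun d => Sum.elim M1 M2 d a b)
    rw [h, Fintype.sum_sum_type]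
    simp only [Sum.elim_inl, Sum.elim_inr]
    rw [hM1, hM2]
    exact Nat.add_sub_cancel' (hx a b)
  · intro a a'
    have h : ∑ c : Fin r, Sum.elim O1 O2 (e.symm c) a a' =
        ∑ d : Fin s ⊕ Fin (r - s), Sum.elim O1 O2 d a a' :=
      Equiv.sum_comp e.symm (fun d => Sum.elim O1 O2 d a a')
    rw [h, Fintype.sum_sum_type]
    simp only [Sum.elim_inl, Sum.elim_inr]
    rw [hO1, hO2, add_zero]
  · intro c a a'
    show Sum.elim O1 O2 (e.symm c) a a' = Sum.elim O1 O2 (e.symm c) a' a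
    cases e.symm c with
    | inl i => exact hs1 i a a'
    | inr j => exact hs2 j a a'
  · intro c a
    show ∑ b, Sum.elim M1 M2 (e.symm c) a b + ∑ a', Sum.elim O1 O2 (e.symm c) a a' ≤ 1
    cases e.symm c with
    | inl i => exact ha1 i a
    | inr j => exact ha2 j a
  · intro c b
    show ∑ a, Sum.elim M1 M2 (e.symm c) a b ≤ 1
    cases e.symm c with
    | inl i => exact hb1 i b
    | inr j => exact hb2 j b

private theorem Main_even {α : Type*} [Fintype α] (o : α → α → ℕ)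
    (ho : ∀ a a', o a a' = o a' a) (hl : ∀ a, o a a = 0) :
    ∃ s, ∑ a, ∑ a', o a a' = 2 * s := by
  have h : ((∑ a, ∑ a', o a a' : ℕ) : ZMod 2) = 0 := by
    push_cast
    rw [← Fintype.sum_prod_type' (f := fun a a' => ((o a a' : ℕ) : ZMod 2))]
    refine Finset.sum_involution (fun (p : α × α) _ => p.swap) ?_ ?_ ?_ ?_
    · intro p _
      show ((o p.1 p.2 : ℕ) : ZMod 2) + ((o p.2 p.1 : ℕ) : ZMod 2) = 0
      rw [ho p.2 p.1]
      exact CharTwo.add_self_eq_zero _
    · intro p _ hne heq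
      apply hne
      have h1 : p.2 = p.1 := congrArg Prod.fst heq
      show ((o p.1 p.2 : ℕ) : ZMod 2) = 0
      rw [h1, hl]
      simp
    · intro p _
      exact Finset.mem_univ _
    · intro p _
      exact Prod.swap_swap p
  have h2 : (2 : ℕ) ∣ ∑ a, ∑ a', o a a' := (ZMod.natCast_eq_zero_iff _ 2).1 h
  obtain ⟨s, hs⟩ := h2
  exact ⟨s, hs⟩

private theorem Main_konig {α β : Type*} [Fintype α] [Fintype β] [DecidableEq α] [DecidableEq β]
    (r : ℕ) (m : α → β → ℕ) (hA : ∀ a, ∑ b, m a b ≤ r) (hB : ∀ b, ∑ a, m a b ≤ r) :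
    OddDec m (fun _ _ => 0) r := by
  obtain ⟨M, h1, h2, h3⟩ := konig_mult r m hA hB
  refine ⟨M, fun _ _ _ => 0, h1, fun a a' => by simp, fun _ _ _ => rfl, fun c a => ?_, h3⟩
  simpa using h2 c a

private theorem Main_star_sum {α : Type*} [Fintype α] [DecidableEq α] (o : α → α → ℕ)
    (ho : ∀ a a', o a a' = o a' a) (hl : ∀ a, o a a = 0) (a0 : α)
    (hst : ∀ a a', o a a' ≠ 0 → a = a0 ∨ a' = a0) :
    ∑ a, ∑ a', o a a' = 2 * ∑ a', o a0 a' := by
  have h1 : ∀ a, ∑ a', o a a' = (if a = a0 then ∑ a', o a0 a' else 0) + o a a0 := by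
    intro a
    by_cases ha : a = a0
    · rw [if_pos ha, ha, hl, add_zero]
    · rw [if_neg ha, zero_add]
      apply Finset.sum_eq_single a0
      · intro b _ hb
        by_contra hne
        rcases hst a b hne with h | h
        · exact ha h
        · exact hb h
      · intro h
        exact absurd (Finset.mem_univ _) h
  rw [Finset.sum_congr rfl fun a _ => h1 a, Finset.sum_add_distrib,
    Finset.sum_ite_eq' Finset.univ a0, if_pos (Finset.mem_univ _),
    Finset.sum_congr rfl fun a _ => ho a a0]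
  ring

theorem oddDec_main {α β : Type*} [Fintype α] [Fintype β] [DecidableEq α] [DecidableEq β]
    (m : α → β → ℕ) (o : α → α → ℕ) (r : ℕ) (ho : ∀ a a', o a a' = o a' a)
    (hl : ∀ a, o a a = 0)
    (hint : ∀ a b c d, o a b ≠ 0 → o c d ≠ 0 → a = c ∨ a = d ∨ b = c ∨ b = d)
    (hA : ∀ a, ∑ b, m a b + ∑ a', o a a' ≤ r) (hB : ∀ b, ∑ a, m a b ≤ r)
    (hodd : ∀ (X : Finset α) (Y : Finset β), Odd (X.card + Y.card) →
      2 * (∑ a ∈ X, ∑ b ∈ Y, m a b) + ∑ a ∈ X, ∑ a' ∈ X, o a a' ≤ r * (X.card + Y.card - 1)) :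
    OddDec m o r := by
  rcases star_or_tri (fun a a' => o a a' ≠ 0) (fun a b h => by rwa [ho b a])
    (fun a h => h (hl a)) hint with h | ⟨a0, hst⟩ | ⟨a1, a2, a3, h12, h13, h23, htr⟩
  · have h0 : o = fun _ _ => 0 := by
      funext a b
      by_contra hne
      exact h a b hne
    rw [h0]
    exact Main_konig r m (fun a => le_trans (Nat.le_add_right _ _) (hA a)) hB
  · have hs := Main_star_sum o ho hl a0 hst
    have hsr : ∑ a', o a0 a' ≤ r := le_trans (Nat.le_add_left _ _) (hA a0)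
    obtain ⟨x, hx, hxA, hxB, hyA, hyB⟩ := exists_split m o r _ ho hs hsr hA hB hodd
    exact oddDec_add hx hsr (oddDec_star x o _ ho hl hs a0 hst hxA hxB)
      (Main_konig _ _ hyA hyB)
  · obtain ⟨s, hs⟩ := Main_even o ho hl
    have hsum : ∑ a ∈ ({a1, a2, a3} : Finset α), ∑ a' ∈ ({a1, a2, a3} : Finset α), o a a' =
        ∑ a, ∑ a', o a a' := by
      have h1 : ∀ a, ∑ a' ∈ ({a1, a2, a3} : Finset α), o a a' = ∑ a', o a a' := by
        intro a
        apply Finset.sum_subset (Finset.subset_univ _)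
        intro b _ hb
        by_contra hne
        apply hb
        rcases (htr a b hne).2 with h | h | h <;> simp [h]
      rw [Finset.sum_congr rfl fun a _ => h1 a]
      apply Finset.sum_subset (Finset.subset_univ _)
      intro a _ ha
      apply Finset.sum_eq_zero
      intro b _
      by_contra hne
      apply ha
      rcases (htr a b hne).1 with h | h | h <;> simp [h]
    have hcard : ({a1, a2, a3} : Finset α).card = 3 := Finset.card_eq_three.2 ⟨a1, a2, a3, h12, h13, h23, rfl⟩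
    have hsr : s ≤ r := by
      have h1 := hodd {a1, a2, a3} ∅ (by rw [hcard, Finset.card_empty]; exact ⟨1, rfl⟩)
      rw [hsum, hs, hcard] at h1
      simp only [Finset.sum_empty, Finset.sum_const_zero, Finset.card_empty] at h1
      omega
    obtain ⟨x, hx, hxA, hxB, hyA, hyB⟩ := exists_split m o r s ho hs hsr hA hB hodd
    exact oddDec_add hx hsr (oddDec_tri x o s ho hl hs a1 a2 a3 h12 h13 h23 htr hxA hxB)
      (Main_konig _ _ hyA hyB)

end PStar
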