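import Pool.Agent.PStar.VC.Sub
import Pool.Agent.PStar.BT.Defs

set_option autoImplicit false

namespace PStar

open Finset

/-- total over `X × Y` is at most `r |X|` -/
private theorem split_le_left {α β : Type*} [Fintype β] [DecidableEq β]
    (m : α → β → ℕ) (t : α → ℕ) (r : ℕ) (hA : ∀ a, ∑ b, m a b + t a ≤ r) (X : Finset α)
    (Y : Finset β) : ∑ a ∈ X, ∑ b ∈ Y, m a b + ∑ a ∈ X, t a ≤ r * X.card := by
  calc ∑ a ∈ X, ∑ b ∈ Y, m a b + ∑ a ∈ X, t a = ∑ a ∈ X, (∑ b ∈ Y, m a b + t a) :=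
        (sum_add_distrib).symm
    _ ≤ ∑ a ∈ X, r := by
        refine sum_le_sum (fun a _ => ?_)
        have h1 : ∑ b ∈ Y, m a b ≤ ∑ b, m a b :=
          sum_le_sum_of_subset (subset_univ Y)
        have h2 := hA a
        omega
    _ = r * X.card := by rw [sum_const, smul_eq_mul, mul_comm]

private theorem split_le_right {α β : Type*} [Fintype α] [DecidableEq α]
    (m : α → β → ℕ) (r : ℕ) (hB : ∀ b, ∑ a, m a b ≤ r) (X : Finset α)
    (Y : Finset β) : ∑ a ∈ X, ∑ b ∈ Y, m a b ≤ r * Y.card := by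
  rw [sum_comm]
  calc ∑ b ∈ Y, ∑ a ∈ X, m a b ≤ ∑ b ∈ Y, r := by
        refine sum_le_sum (fun b _ => ?_)
        exact (sum_le_sum_of_subset (subset_univ X)).trans (hB b)
    _ = r * Y.card := by rw [sum_const, smul_eq_mul, mul_comm]

/-- Splitting off a part `x` of degree at most `s`, where `s` is the number of odd edges, which
leaves room for the odd edges. -/
theorem exists_split {α β : Type*} [Fintype α] [Fintype β] [DecidableEq α] [DecidableEq β]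
    (m : α → β → ℕ) (o : α → α → ℕ) (r s : ℕ) (ho : ∀ a a', o a a' = o a' a)
    (hs : ∑ a, ∑ a', o a a' = 2 * s) (hsr : s ≤ r)
    (hA : ∀ a, ∑ b, m a b + ∑ a', o a a' ≤ r) (hB : ∀ b, ∑ a, m a b ≤ r)
    (hodd : ∀ (X : Finset α) (Y : Finset β), Odd (X.card + Y.card) →
      2 * (∑ a ∈ X, ∑ b ∈ Y, m a b) + ∑ a ∈ X, ∑ a' ∈ X, o a a' ≤ r * (X.card + Y.card - 1)) :
    ∃ x : α → β → ℕ, (∀ a b, x a b ≤ m a b) ∧ (∀ a, ∑ b, x a b + ∑ a', o a a' ≤ s) ∧
      (∀ b, ∑ a, x a b ≤ s) ∧ (∀ a, ∑ b, (m a b - x a b) ≤ r - s) ∧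
      (∀ b, ∑ a, (m a b - x a b) ≤ r - s) := by
  have key := exists_subdeg m (fun a => (∑ b, (m a b : ℤ)) - ((r : ℤ) - s))
    (fun a => (s : ℤ) - ∑ a', (o a a' : ℤ)) (fun b => (∑ a, (m a b : ℤ)) - ((r : ℤ) - s))
    (fun _ => (s : ℤ)) ?_ ?_ ?_ ?_
  · obtain ⟨x, hx, hLA, hUA, hLB, hUB⟩ := key
    refine ⟨x, hx, ?_, ?_, ?_, ?_⟩
    · intro a
      have h := hUA a
      have h' : ((∑ b, x a b + ∑ a', o a a' : ℕ) : ℤ) ≤ ((s : ℕ) : ℤ) := by
        push_cast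
        linarith
      exact_mod_cast h'
    · intro b
      have h := hUB b
      have h' : ((∑ a, x a b : ℕ) : ℤ) ≤ ((s : ℕ) : ℤ) := by
        push_cast
        linarith
      exact_mod_cast h'
    · intro a
      have h := hLA a
      have h1 : ∑ b, (m a b - x a b) + ∑ b, x a b = ∑ b, m a b := by
        rw [← sum_add_distrib]
        exact sum_congr rfl (fun b _ => Nat.sub_add_cancel (hx a b))
      have h2 : ((∑ b, (m a b - x a b) : ℕ) : ℤ) + ((∑ b, x a b : ℕ) : ℤ)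
          = ((∑ b, m a b : ℕ) : ℤ) := by exact_mod_cast h1
      have h3 : ((∑ b, x a b : ℕ) : ℤ) = ∑ b, (x a b : ℤ) := by push_cast; rfl
      have h4 : ((∑ b, m a b : ℕ) : ℤ) = ∑ b, (m a b : ℤ) := by push_cast; rfl
      rw [h3, h4] at h2
      have h5 : ((∑ b, (m a b - x a b) : ℕ) : ℤ) ≤ ((r : ℤ) - s) := by linarith
      omega
    · intro b
      have h := hLB b
      have h1 : ∑ a, (m a b - x a b) + ∑ a, x a b = ∑ a, m a b := by
        rw [← sum_add_distrib]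
        exact sum_congr rfl (fun a _ => Nat.sub_add_cancel (hx a b))
      have h2 : ((∑ a, (m a b - x a b) : ℕ) : ℤ) + ((∑ a, x a b : ℕ) : ℤ)
          = ((∑ a, m a b : ℕ) : ℤ) := by exact_mod_cast h1
      have h3 : ((∑ a, x a b : ℕ) : ℤ) = ∑ a, (x a b : ℤ) := by push_cast; rfl
      have h4 : ((∑ a, m a b : ℕ) : ℤ) = ∑ a, (m a b : ℤ) := by push_cast; rfl
      rw [h3, h4] at h2
      have h5 : ((∑ a, (m a b - x a b) : ℕ) : ℤ) ≤ ((r : ℤ) - s) := by linarith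
      omega
  · intro a
    have h := hA a
    have h' : ((∑ b, m a b + ∑ a', o a a' : ℕ) : ℤ) ≤ ((r : ℕ) : ℤ) := by exact_mod_cast h
    push_cast at h'
    linarith
  · intro b
    have h := hB b
    have h' : ((∑ a, m a b : ℕ) : ℤ) ≤ ((r : ℕ) : ℤ) := by exact_mod_cast h
    push_cast at h'
    linarith
  · intro X Y
    have h1 := split_le_left m (fun a => ∑ a', o a a') r hA X Y
    have h2 := split_le_right m r hB X Y
    have hsplit : ∑ a ∈ X, ∑ b, (m a b : ℤ)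
        = ∑ a ∈ X, ∑ b ∈ Y, (m a b : ℤ) + ∑ a ∈ X, ∑ b ∈ Yᶜ, (m a b : ℤ) := by
      rw [← sum_add_distrib]
      exact sum_congr rfl (fun a _ => (sum_add_sum_compl Y _).symm)
    have h1' : ((∑ a ∈ X, ∑ b ∈ Y, m a b + ∑ a ∈ X, ∑ a', o a a' : ℕ) : ℤ)
        ≤ ((r * X.card : ℕ) : ℤ) := by exact_mod_cast h1
    have h2' : ((∑ a ∈ X, ∑ b ∈ Y, m a b : ℕ) : ℤ) ≤ ((r * Y.card : ℕ) : ℤ) := by
      exact_mod_cast h2
    push_cast at h1' h2'
    have h0 : (0 : ℤ) ≤ ∑ a ∈ X, ∑ a', (o a a' : ℤ) :=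
      sum_nonneg (fun a _ => sum_nonneg (fun a' _ => by positivity))
    simp only [sum_sub_distrib, sum_const, nsmul_eq_mul]
    rw [hsplit]
    have hsr' : (0 : ℤ) ≤ (r : ℤ) - s := by
      have : (s : ℤ) ≤ r := by exact_mod_cast hsr
      linarith
    have hs0 : (0 : ℤ) ≤ (s : ℤ) := by positivity
    rcases le_total X.card Y.card with h | h
    · have hc : (X.card : ℤ) ≤ (Y.card : ℤ) := by exact_mod_cast h
      nlinarith [mul_le_mul_of_nonneg_left hc hs0]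
    · have hc : (Y.card : ℤ) ≤ (X.card : ℤ) := by exact_mod_cast h
      nlinarith [mul_le_mul_of_nonneg_left hc hsr']
  · intro X Y
    have h1 := split_le_left m (fun a => ∑ a', o a a') r hA X Y
    have h2 := split_le_right m r hB X Y
    have hsplit : ∑ b ∈ Y, ∑ a, (m a b : ℤ)
        = ∑ a ∈ X, ∑ b ∈ Y, (m a b : ℤ) + ∑ a ∈ Xᶜ, ∑ b ∈ Y, (m a b : ℤ) := by
      rw [sum_add_sum_compl X (fun a => ∑ b ∈ Y, (m a b : ℤ))]
      exact sum_comm
    have h1' : ((∑ a ∈ X, ∑ b ∈ Y, m a b + ∑ a ∈ X, ∑ a', o a a' : ℕ) : ℤ)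
        ≤ ((r * X.card : ℕ) : ℤ) := by exact_mod_cast h1
    have h2' : ((∑ a ∈ X, ∑ b ∈ Y, m a b : ℕ) : ℤ) ≤ ((r * Y.card : ℕ) : ℤ) := by
      exact_mod_cast h2
    push_cast at h1' h2'
    have hs' : ∑ a, ∑ a', (o a a' : ℤ) = 2 * (s : ℤ) := by exact_mod_cast hs
    have hsr' : (0 : ℤ) ≤ (r : ℤ) - s := by
      have : (s : ℤ) ≤ r := by exact_mod_cast hsr
      linarith
    have hs0 : (0 : ℤ) ≤ (s : ℤ) := by positivity
    have hX : ∑ a, ∑ a', (o a a' : ℤ)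
        = ∑ a ∈ X, ∑ a', (o a a' : ℤ) + ∑ a ∈ Xᶜ, ∑ a', (o a a' : ℤ) :=
      (sum_add_sum_compl X _).symm
    have hnn : (0 : ℤ) ≤ ∑ a ∈ Xᶜ, ∑ a', (o a a' : ℤ) :=
      sum_nonneg (fun a _ => sum_nonneg (fun a' _ => by positivity))
    simp only [sum_sub_distrib, sum_const, nsmul_eq_mul]
    rw [hsplit]
    rcases le_or_gt X.card Y.card with h | h
    · have hc : (X.card : ℤ) ≤ (Y.card : ℤ) := by exact_mod_cast h
      nlinarith [mul_le_mul_of_nonneg_left hc hsr']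
    · rcases Nat.lt_or_ge (Y.card + 1) X.card with h3 | h3
      · have hc : (Y.card : ℤ) + 2 ≤ (X.card : ℤ) := by exact_mod_cast h3
        nlinarith [mul_le_mul_of_nonneg_left hc hs0]
      · have hc : X.card = Y.card + 1 := by omega
        have hod := hodd X Y (by rw [hc]; exact ⟨Y.card, by ring⟩)
        have e1 : X.card + Y.card - 1 = 2 * Y.card := by omega
        rw [e1] at hod
        have hod' : 2 * (∑ a ∈ X, ∑ b ∈ Y, (m a b : ℤ)) + ∑ a ∈ X, ∑ a' ∈ X, (o a a' : ℤ)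
            ≤ (r : ℤ) * (2 * (Y.card : ℤ)) := by exact_mod_cast hod
        have hXX : ∑ a ∈ X, ∑ a', (o a a' : ℤ)
            = ∑ a ∈ X, ∑ a' ∈ X, (o a a' : ℤ) + ∑ a ∈ X, ∑ a' ∈ Xᶜ, (o a a' : ℤ) := by
          rw [← sum_add_distrib]
          exact sum_congr rfl (fun a _ => (sum_add_sum_compl X _).symm)
        have hXc : ∑ a ∈ Xᶜ, ∑ a', (o a a' : ℤ)
            = ∑ a ∈ Xᶜ, ∑ a' ∈ X, (o a a' : ℤ) + ∑ a ∈ Xᶜ, ∑ a' ∈ Xᶜ, (o a a' : ℤ) := by
          rw [← sum_add_distrib]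
          exact sum_congr rfl (fun a _ => (sum_add_sum_compl X _).symm)
        have hsw : ∑ a ∈ Xᶜ, ∑ a' ∈ X, (o a a' : ℤ) = ∑ a ∈ X, ∑ a' ∈ Xᶜ, (o a a' : ℤ) := by
          rw [sum_comm]
          exact sum_congr rfl (fun a _ => sum_congr rfl (fun a' _ => by rw [ho a' a]))
        have hcc : (0 : ℤ) ≤ ∑ a ∈ Xᶜ, ∑ a' ∈ Xᶜ, (o a a' : ℤ) :=
          sum_nonneg (fun a _ => sum_nonneg (fun a' _ => by positivity))
        have hc' : (X.card : ℤ) = (Y.card : ℤ) + 1 := by exact_mod_cast hc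
        rw [hc']
        nlinarith

end PStar
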